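import Mathlib
import Pool.Agent.helper14.HS.SeqGen

set_option autoImplicit false

/-!
Every finite set of positive integers is the set of sequential parameters of a connected graph; in
fact of infinitely many connected graphs, with an explicit bound for the number of vertices and edges.
-/

namespace Pool.Agent.Results.MP_288a40_co.PrescribedSequentialSets

/-- `f` is a total numbering of `G`: it labels the vertices and the edges by positive integers, all
labels are different, and every edge `uv` is labelled by `|f(u) - f(v)|`. -/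
def IsTotalNumbering {V : Type} (G : SimpleGraph V) (f : V ⊕ G.edgeSet → ℕ) : Prop :=
  (∀ x, 1 ≤ f x) ∧ Function.Injective f ∧
    ∀ (u v : V) (h : s(u, v) ∈ G.edgeSet),
      (f (Sum.inr ⟨s(u, v), h⟩) : ℤ) = |(f (Sum.inl u) : ℤ) - (f (Sum.inl v) : ℤ)|

/-- `Seq(G)`: the set of the positive integers `k` for which `G` (with `n` vertices and `m` edges) has
a total numbering whose set of labels is `{k, k + 1, ..., k + n + m - 1}`. -/
def Seq {V : Type} (G : SimpleGraph V) : Set ℕ :=
  {k : ℕ | 1 ≤ k ∧ ∃ f : V ⊕ G.edgeSet → ℕ, IsTotalNumbering G f ∧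
    Set.range f = Set.Ico k (k + (Nat.card V + Nat.card G.edgeSet))}

/-- a numbering of the vertices as in the helper files gives a total numbering -/
lemma mem_seq_of {V : Type} [Fintype V] [Nonempty V] (G : SimpleGraph V) {k : ℕ} (hk : 1 ≤ k)
    (f : V → ℕ) (h : Pool.Agent.helper11.Seq.IsSeq G k f) : k ∈ Seq G := by
  obtain ⟨h1, h2, h3, h4⟩ := h
  have hpos : ∀ t : ℕ, t ∈ Set.Icc k (k + Nat.card V + G.edgeSet.ncard - 1) → 1 ≤ t :=
    fun t ht => hk.trans ht.1
  let w : Sym2 V → ℕ := Sym2.lift ⟨fun u v => Int.natAbs ((f u : ℤ) - (f v : ℤ)), fun u v => by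
    beta_reduce; omega⟩
  have hw : ∀ u v : V, w s(u, v) = Int.natAbs ((f u : ℤ) - (f v : ℤ)) := fun u v => rfl
  have hrange : Set.range (Sum.elim f (fun e : G.edgeSet => w e.1)) =
      Set.Icc k (k + Nat.card V + G.edgeSet.ncard - 1) := by
    rw [← h4]
    ext t
    constructor
    · rintro ⟨x | ⟨e, he⟩, rfl⟩
      · exact Or.inl ⟨x, rfl⟩
      · induction e using Sym2.ind with
        | _ u v => exact Or.inr ⟨u, v, he, rfl⟩
    · rintro (⟨x, rfl⟩ | ⟨u, v, huv, rfl⟩)
      · exact ⟨Sum.inl x, rfl⟩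
      · exact ⟨Sum.inr ⟨s(u, v), huv⟩, rfl⟩
  refine ⟨hk, Sum.elim f (fun e => w e.1), ⟨?_, ?_, ?_⟩, ?_⟩
  · intro x
    apply hpos
    rw [← hrange]
    exact ⟨x, rfl⟩
  · rintro (x | ⟨e, he⟩) (y | ⟨e', he'⟩) hxy
    · exact congrArg Sum.inl (h1 hxy)
    · exfalso
      induction e' using Sym2.ind with
      | _ u v => exact h3 u v x he' hxy
    · exfalso
      induction e using Sym2.ind with
      | _ u v => exact h3 u v y he hxy.symm
    · induction e using Sym2.ind with
      | _ u v =>
        induction e' using Sym2.ind with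
        | _ x y =>
          have := h2 u v x y he he' hxy
          exact congrArg Sum.inr (Subtype.ext this)
  · intro u v h
    simp only [Sum.elim_inr, Sum.elim_inl]
    rw [hw, Int.natCast_natAbs]
  · rw [hrange]
    have hc : Nat.card G.edgeSet = G.edgeSet.ncard := rfl
    rw [hc]
    have hV : 0 < Nat.card V := Nat.card_pos
    ext t
    rw [Set.mem_Icc, Set.mem_Ico]
    omega

/-- a total numbering gives a numbering of the vertices as in the helper files -/
lemma of_mem_seq {V : Type} [Fintype V] [Nonempty V] (G : SimpleGraph V) {k : ℕ}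
    (h : k ∈ Seq G) : ∃ f : V → ℕ, Pool.Agent.helper11.Seq.IsSeq G k f := by
  obtain ⟨hk, F, ⟨hpos, hinj, hedge⟩, hrange⟩ := h
  have hlab : ∀ (u v : V) (h : s(u, v) ∈ G.edgeSet),
      F (Sum.inr ⟨s(u, v), h⟩) = Int.natAbs ((F (Sum.inl u) : ℤ) - (F (Sum.inl v) : ℤ)) := by
    intro u v h
    have := hedge u v h
    rw [← Int.natCast_natAbs] at this
    exact_mod_cast this
  refine ⟨fun v => F (Sum.inl v), ?_, ?_, ?_, ?_⟩
  · intro x y hxy
    exact Sum.inl.inj (hinj hxy)
  · intro u v x y huv hxy h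
    have e := hinj ((hlab u v huv).trans (h.trans (hlab x y hxy).symm))
    exact congrArg Subtype.val (Sum.inr.inj e)
  · intro u v w huv h
    have := hinj (h.trans (hlab u v huv).symm)
    exact absurd this (by simp)
  · have hc : Nat.card G.edgeSet = G.edgeSet.ncard := rfl
    have hV : 0 < Nat.card V := Nat.card_pos
    have hI : Set.Icc k (k + Nat.card V + G.edgeSet.ncard - 1) =
        Set.Ico k (k + (Nat.card V + Nat.card G.edgeSet)) := by
      rw [hc]
      ext t
      rw [Set.mem_Icc, Set.mem_Ico]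
      omega
    rw [hI, ← hrange]
    ext t
    constructor
    · rintro (⟨x, rfl⟩ | ⟨u, v, huv, rfl⟩)
      · exact ⟨Sum.inl x, rfl⟩
      · exact ⟨Sum.inr ⟨s(u, v), huv⟩, hlab u v huv⟩
    · rintro ⟨x | ⟨e, he⟩, rfl⟩
      · exact Or.inl ⟨x, rfl⟩
      · induction e using Sym2.ind with
        | _ u v => exact Or.inr ⟨u, v, he, hlab u v he⟩

/-- transport of numberings along an isomorphism -/
lemma isSeq_iso {V W : Type} [Fintype V] [Fintype W] {G : SimpleGraph V} {H : SimpleGraph W}
    (e : G ≃g H) {k : ℕ} {f : V → ℕ} (h : Pool.Agent.helper11.Seq.IsSeq G k f) :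
    Pool.Agent.helper11.Seq.IsSeq H k (fun w => f (e.symm w)) := by
  obtain ⟨h1, h2, h3, h4⟩ := h
  have hadj : ∀ {u v : W}, H.Adj u v → G.Adj (e.symm u) (e.symm v) := fun h =>
    (SimpleGraph.Iso.map_adj_iff e.symm).2 h
  refine ⟨fun x y hxy => e.symm.injective (h1 hxy), ?_, ?_, ?_⟩
  · intro u v x y huv hxy hl
    have h5 := congrArg (Sym2.map e) (h2 _ _ _ _ (hadj huv) (hadj hxy) hl)
    simpa using h5
  · intro u v w huv
    exact h3 _ _ _ (hadj huv)
  · have hc1 : Nat.card W = Nat.card V := Nat.card_congr e.symm.toEquiv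
    have hc2 : H.edgeSet.ncard = G.edgeSet.ncard := (Nat.card_congr e.mapEdgeSet).symm
    rw [hc1, hc2, ← h4]
    ext t
    constructor
    · rintro (⟨x, rfl⟩ | ⟨u, v, huv, rfl⟩)
      · exact Or.inl ⟨_, rfl⟩
      · exact Or.inr ⟨_, _, hadj huv, rfl⟩
    · rintro (⟨x, rfl⟩ | ⟨u, v, huv, rfl⟩)
      · exact Or.inl ⟨e x, by simp⟩
      · exact Or.inr ⟨e u, e v, (SimpleGraph.Iso.map_adj_iff e).2 huv, by simp⟩

/-- **Prescribed sets of sequential parameters.** For every finite set `S` of positive integers, all at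
most `M`, and every `q ≥ M + 30` there is a connected graph `G` with at least `2 ^ q` vertices, with at
most `32 ^ q` vertices and edges together, and with `Seq(G) = S`. -/
theorem result (S : Finset ℕ) (hS : ∀ k ∈ S, 1 ≤ k) (M : ℕ) (hM : ∀ k ∈ S, k ≤ M) (q : ℕ)
    (hq : M + 30 ≤ q) :
    ∃ (n : ℕ) (G : SimpleGraph (Fin n)), G.Connected ∧ Seq G = (S : Set ℕ) ∧
      2 ^ q ≤ n ∧ n + Nat.card G.edgeSet ≤ 32 ^ q := by
  have hsup : S.sup id + 30 ≤ q := by
    have : S.sup id ≤ M := Finset.sup_le hM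
    omega
  obtain ⟨V, iV, G, hG, ⟨hc1, hc2⟩, hseq⟩ := Pool.Agent.helper14.HS.main_q S hS q hsup
  have e : G ≃g G.overFin rfl := G.overFinIso rfl
  have hconn : (G.overFin rfl).Connected := e.connected_iff.1 hG
  have : Nonempty V := hG.nonempty
  have : Nonempty (Fin (Fintype.card V)) := hconn.nonempty
  refine ⟨Fintype.card V, G.overFin rfl, hconn, ?_, hc1, ?_⟩
  · ext k
    constructor
    · intro hk
      obtain ⟨f, hf⟩ := of_mem_seq _ hk
      exact (hseq k hk.1).2 ⟨_, isSeq_iso e.symm hf⟩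
    · intro hk
      have hk1 := hS k hk
      obtain ⟨f, hf⟩ := (hseq k hk1).1 hk
      exact mem_seq_of _ hk1 _ (isSeq_iso e hf)
  · have : Nat.card (G.overFin rfl).edgeSet = G.edgeSet.ncard := (Nat.card_congr e.mapEdgeSet).symm
    rw [this]
    exact hc2

end Pool.Agent.Results.MP_288a40_co.PrescribedSequentialSets
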